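import Pool.Agent.Helper82.PN.Goals

/-!
# Project PN (MP_6fb600_gt), packet DIRL
-/

set_option autoImplicit false

open MeasureTheory Set
open scoped ENNReal
open Pool.Agent.Helper82.PN

noncomputable section

namespace Pool.Agent.Helper64.PN

/-- affine independence of a subfamily in terms of weights on the index type -/
theorem indep_iff {ι σ : Type} [Fintype ι] (x : σ → ι → ℝ) (s : Finset σ) :
    AffineIndependent ℝ (fun i : s => x i) ↔
      ∀ w : σ → ℝ, ∑ i ∈ s, w i = 0 → ∑ i ∈ s, w i • x i = 0 → ∀ i ∈ s, w i = 0 := by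
  classical
  rw [affineIndependent_iff_of_fintype]
  constructor
  · intro h w hw hs i hi
    have h1 : ∑ i : s, w i = 0 := by rw [Finset.sum_coe_sort s w]; exact hw
    have h2 := h (fun i : s => w i) h1 (by
      rw [Finset.weightedVSub_eq_linear_combination _ h1]
      exact (Finset.sum_coe_sort s (fun i => w i • x i)).trans hs)
    exact h2 ⟨i, hi⟩
  · intro h w hw hs i
    have h1 : ∑ i ∈ s, (fun i => if h : i ∈ s then w ⟨i, h⟩ else 0) i = ∑ i : s, w i := by
      rw [← Finset.sum_coe_sort]
      refine Finset.sum_congr rfl fun i _ => ?_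
      simp
    have h2 : ∑ i ∈ s, (fun i => if h : i ∈ s then w ⟨i, h⟩ else 0) i • x i =
        ∑ i : s, w i • x i := by
      rw [← Finset.sum_coe_sort]
      refine Finset.sum_congr rfl fun i _ => ?_
      simp
    rw [Finset.weightedVSub_eq_linear_combination _ hw] at hs
    have h3 := h (fun i => if h : i ∈ s then w ⟨i, h⟩ else 0) (h1.trans hw) (h2.trans hs) i i.2
    simpa using h3

theorem mv_ne {ι σ : Type} (x : σ → ι → ℝ) {j l : σ} (v : ι → ℝ) (t : ℝ) (h : l ≠ j) :
    mv x j v t l = x l := by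
  simp [mv, h]

theorem mv_self {ι σ : Type} (x : σ → ι → ℝ) (j : σ) (v : ι → ℝ) (t : ℝ) :
    mv x j v t j = x j + t • v := by
  simp [mv]

/-- the point `x j` moved into the span of the points of `S \ {i}` -/
theorem not_gen {ι σ : Type} [Fintype ι] [DecidableEq σ] (x : σ → ι → ℝ) (S : Finset σ) (j : σ)
    (hS : S.card = Fintype.card ι + 1) (hj : j ∉ S) (β : σ → ℝ) (hβ1 : ∑ i ∈ S, β i = 1)
    (hβ2 : ∑ i ∈ S, β i • x i = x j) (i k : σ) (hi : i ∈ S) (hk : k ∈ S) (hik : i ≠ k) :
    ¬ GenPos (mv x j (x i - x k) (-β i)) := by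
  intro hg
  have hkS : k ∈ S.erase i := Finset.mem_erase.2 ⟨hik.symm, hk⟩
  have hjE : j ∉ S.erase i := fun h => hj (Finset.mem_of_mem_erase h)
  have hc : (insert j (S.erase i)).card ≤ Fintype.card ι + 1 := by
    rw [Finset.card_insert_of_notMem hjE, Finset.card_erase_of_mem hi, hS]
    omega
  have h1 := (indep_iff _ _).1 (hg _ hc)
  set w : σ → ℝ := fun l => if l = j then -1 else (β l + if l = k then β i else 0) with hw
  have hwj : w j = -1 := by simp [hw]
  have hwl : ∀ l ∈ S.erase i, w l = β l + if l = k then β i else 0 := by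
    intro l hl
    have : l ≠ j := fun h => hjE (h ▸ hl)
    simp [hw, this]
  have hsplit1 : ∑ l ∈ S.erase i, β l = 1 - β i := by
    rw [← hβ1, ← Finset.add_sum_erase S β hi]; ring
  have hsplit2 : ∑ l ∈ S.erase i, β l • x l = x j - β i • x i := by
    rw [← hβ2, ← Finset.add_sum_erase S (fun l => β l • x l) hi]; abel
  have h2 := h1 w ?_ ?_ j (Finset.mem_insert_self _ _)
  · rw [hwj] at h2
    norm_num at h2
  · rw [Finset.sum_insert hjE, hwj, Finset.sum_congr rfl hwl, Finset.sum_add_distrib, hsplit1,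
      Finset.sum_ite_eq' (S.erase i) k, if_pos hkS]
    ring
  · rw [Finset.sum_insert hjE, hwj]
    have h3 : ∀ l ∈ S.erase i, w l • mv x j (x i - x k) (-β i) l =
        β l • x l + if l = k then β i • x l else 0 := by
      intro l hl
      have hlj : l ≠ j := fun h => hjE (h ▸ hl)
      rw [hwl l hl, mv_ne x _ _ hlj]
      split_ifs with h
      · rw [add_smul]
      · rw [add_zero, add_zero]
    rw [Finset.sum_congr rfl h3, Finset.sum_add_distrib, hsplit2,
      Finset.sum_ite_eq' (S.erase i) k, if_pos hkS, mv_self]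
    module

theorem gDIRL : DIRL := by
  intro ι σ _ _ x hx hn hσ
  classical
  set n := Fintype.card ι with hn'
  -- the indices
  obtain ⟨A, -, hA⟩ := Finset.exists_subset_card_eq (s := (Finset.univ : Finset σ)) (n := n + 2)
    (by rw [Finset.card_univ]; exact hσ)
  have hAne : A.Nonempty := by
    rw [← Finset.card_pos]; omega
  obtain ⟨j, hjA⟩ := hAne
  set S := A.erase j with hSdef
  have hS : S.card = n + 1 := by
    rw [hSdef, Finset.card_erase_of_mem hjA, hA]
    omega
  have hjS : j ∉ S := Finset.notMem_erase _ _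
  -- the coordinates of x j
  have hind : AffineIndependent ℝ (fun i : S => x i) := hx S hS.le
  have hspan : affineSpan ℝ (Set.range (fun i : S => x i)) = ⊤ := by
    rw [hind.affineSpan_eq_top_iff_card_eq_finrank_add_one]
    rw [Fintype.card_coe, hS, Module.finrank_fintype_fun_eq_card]
  have hmem : x j ∈ affineSpan ℝ (Set.range (fun i : S => x i)) := by
    rw [hspan]; trivial
  obtain ⟨b, hb1, hb2⟩ := eq_affineCombination_of_mem_affineSpan_of_fintype hmem
  rw [Finset.affineCombination_eq_linear_combination _ _ _ hb1] at hb2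
  set β : σ → ℝ := fun i => if h : i ∈ S then b ⟨i, h⟩ else 0 with hβ
  have hβ1 : ∑ i ∈ S, β i = 1 := by
    rw [← hb1, ← Finset.sum_coe_sort]
    refine Finset.sum_congr rfl fun i _ => ?_
    simp [hβ]
  have hβ2 : ∑ i ∈ S, β i • x i = x j := by
    rw [hb2, ← Finset.sum_coe_sort]
    refine Finset.sum_congr rfl fun i _ => ?_
    simp [hβ]
  -- nonzero coordinates
  have hβ0 : ∀ i ∈ S, β i ≠ 0 := by
    intro i hi h0
    have hjE : j ∉ S.erase i := fun h => hjS (Finset.mem_of_mem_erase h)
    have hc : (insert j (S.erase i)).card ≤ n + 1 := by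
      rw [Finset.card_insert_of_notMem hjE, Finset.card_erase_of_mem hi, hS]
      omega
    have h1 := (indep_iff _ _).1 (hx _ hc)
    set w : σ → ℝ := fun l => if l = j then -1 else β l with hw
    have hwj : w j = -1 := by simp [hw]
    have hwl : ∀ l ∈ S.erase i, w l = β l := by
      intro l hl
      have : l ≠ j := fun h => hjE (h ▸ hl)
      simp [hw, this]
    have h2 := h1 w ?_ ?_ j (Finset.mem_insert_self _ _)
    · rw [hwj] at h2
      norm_num at h2
    · rw [Finset.sum_insert hjE, hwj, Finset.sum_congr rfl hwl]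
      rw [← Finset.add_sum_erase S β hi, h0, zero_add] at hβ1
      rw [hβ1]; ring
    · rw [Finset.sum_insert hjE, hwj,
        Finset.sum_congr rfl (g := fun l => β l • x l) (fun l hl => by rw [hwl l hl])]
      rw [← Finset.add_sum_erase S (fun l => β l • x l) hi, h0, zero_smul, zero_add] at hβ2
      rw [hβ2]; module
  -- two coordinates of the same sign
  obtain ⟨i, hi, k, hk, hik, hsgn⟩ := Finset.exists_ne_map_eq_of_card_lt_of_maps_to
    (s := S) (t := (Finset.univ : Finset Bool)) (f := fun l => decide (0 < β l))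
    (by rw [hS]; simp; omega) (fun _ _ => Finset.mem_univ _)
  have hsgn' : (0 < β i) ↔ (0 < β k) := by
    simpa using hsgn
  set v : ι → ℝ := x i - x k with hv
  have hv0 : v ≠ 0 := by
    intro h
    have hc : ({i, k} : Finset σ).card ≤ n + 1 := by
      rw [Finset.card_pair hik]; omega
    have h1 := (indep_iff _ _).1 (hx _ hc) (fun l => if l = i then 1 else -1) ?_ ?_ i
      (by simp)
    · simp at h1
    · rw [Finset.sum_pair hik]
      simp [hik.symm]
    · rw [Finset.sum_pair hik]
      simp only [if_true, if_neg hik.symm, one_smul, neg_smul]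
      rw [hv] at h
      rw [← sub_eq_add_neg]
      exact h
  have hN1 : ¬ GenPos (mv x j v (-β i)) :=
    not_gen x S j hS hjS β hβ1 hβ2 i k hi hk hik
  have hN2 : ¬ GenPos (mv x j v (β k)) := by
    have h1 := not_gen x S j hS hjS β hβ1 hβ2 k i hk hi hik.symm
    have h2 : mv x j (x k - x i) (-β k) = mv x j v (β k) := by
      unfold mv
      congr 1
      rw [hv]
      module
    rwa [h2] at h1
  have hneg : ∃ t < 0, ¬ GenPos (mv x j v t) := by
    rcases lt_or_gt_of_ne (hβ0 i hi) with h | h
    · have h3 : β k < 0 := by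
        rcases lt_or_gt_of_ne (hβ0 k hk) with h4 | h4
        · exact h4
        · exact absurd (hsgn'.2 h4) (not_lt.2 h.le)
      exact ⟨β k, h3, hN2⟩
    · exact ⟨-β i, by linarith, hN1⟩
  have hpos : ∃ t > 0, ¬ GenPos (mv x j v t) := by
    rcases lt_or_gt_of_ne (hβ0 i hi) with h | h
    · exact ⟨-β i, by linarith, hN1⟩
    · exact ⟨β k, hsgn'.1 h, hN2⟩
  -- the set of good times
  set Z : Set ℝ := {t | ¬ GenPos (mv x j v t)} with hZ
  have hcont : ∀ s : Finset σ, Continuous (fun t : ℝ => (fun i : s => mv x j v t i)) := by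
    intro s
    refine continuous_pi fun l => ?_
    by_cases h : (l : σ) = j
    · have : (fun t : ℝ => mv x j v t l) = fun t => x j + t • v := by
        funext t
        rw [h, mv_self]
      rw [this]
      fun_prop
    · have : (fun t : ℝ => mv x j v t l) = fun t => x l := by
        funext t
        rw [mv_ne x _ _ h]
      rw [this]
      fun_prop
  have hopen : IsOpen {t : ℝ | GenPos (mv x j v t)} := by
    have h1 : {t : ℝ | GenPos (mv x j v t)} =
        ⋂ s : Finset σ, {t : ℝ | s.card ≤ n + 1 →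
          AffineIndependent ℝ (fun i : s => mv x j v t i)} := by
      ext t
      simp only [Set.mem_setOf_eq, Set.mem_iInter]
      exact Iff.rfl
    rw [h1]
    refine isOpen_iInter_of_finite fun s => ?_
    by_cases hs : s.card ≤ n + 1
    · have h2 : {t : ℝ | s.card ≤ n + 1 → AffineIndependent ℝ (fun i : s => mv x j v t i)} =
          (fun t : ℝ => (fun i : s => mv x j v t i)) ⁻¹' {p | AffineIndependent ℝ p} := by
        ext t
        simp [hs]
      rw [h2]
      exact isOpen_setOfPred_affineIndependent.preimage (hcont s)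
    · have h2 : {t : ℝ | s.card ≤ n + 1 → AffineIndependent ℝ (fun i : s => mv x j v t i)} =
          Set.univ := by
        ext t
        simp [hs]
      rw [h2]
      exact isOpen_univ
  have hZc : IsClosed Z := by
    rw [← isOpen_compl_iff]
    convert hopen using 1
    ext t
    simp [hZ]
  have h0 : (0 : ℝ) ∉ Z := by
    intro h
    apply h
    have : mv x j v 0 = x := by
      unfold mv
      rw [zero_smul, add_zero, Function.update_eq_self]
    rw [this]
    exact hx
  -- the first bad times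
  have hP : ∃ t₁ ∈ Z, 0 < t₁ ∧ ∀ t, 0 ≤ t → t < t₁ → t ∉ Z := by
    obtain ⟨t, ht, htZ⟩ := hpos
    set Y := Z ∩ Ici (0 : ℝ) with hY
    have hYc : IsClosed Y := hZc.inter isClosed_Ici
    have hYn : Y.Nonempty := ⟨t, htZ, le_of_lt ht⟩
    have hYb : BddBelow Y := ⟨0, fun y hy => hy.2⟩
    have h3 := hYc.csInf_mem hYn hYb
    refine ⟨sInf Y, h3.1, lt_of_le_of_ne h3.2 (fun h => h0 (h ▸ h3.1)), ?_⟩
    intro u hu0 hu huZ
    exact absurd (csInf_le hYb ⟨huZ, hu0⟩) (not_le.2 hu)
  have hM : ∃ t₀ ∈ Z, t₀ < 0 ∧ ∀ t, t ≤ 0 → t₀ < t → t ∉ Z := by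
    obtain ⟨t, ht, htZ⟩ := hneg
    set Y := Z ∩ Iic (0 : ℝ) with hY
    have hYc : IsClosed Y := hZc.inter isClosed_Iic
    have hYn : Y.Nonempty := ⟨t, htZ, le_of_lt ht⟩
    have hYb : BddAbove Y := ⟨0, fun y hy => hy.2⟩
    have h3 := hYc.csSup_mem hYn hYb
    refine ⟨sSup Y, h3.1, lt_of_le_of_ne h3.2 (fun h => h0 (h ▸ h3.1)), ?_⟩
    intro u hu0 hu huZ
    exact absurd (le_csSup hYb ⟨huZ, hu0⟩) (not_le.2 hu)
  obtain ⟨t₁, ht₁, ht₁0, hgood₁⟩ := hP
  obtain ⟨t₀, ht₀, ht₀0, hgood₀⟩ := hM
  refine ⟨j, v, t₀, t₁, hv0, ht₀0, ht₁0, ?_, ht₀, ht₁⟩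
  intro t ht
  by_contra hcon
  rcases le_total 0 t with h | h
  · exact hgood₁ t h ht.2 hcon
  · exact hgood₀ t h ht.1 hcon

end Pool.Agent.Helper64.PN
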